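import Pool.Agent.H37.CTQ.Stmts

/-! Board ctq, row PGN (helper86): permutation groups of degree `n`. -/

set_option autoImplicit false

namespace Pool.CND

open Finset

theorem pgn_pos (p n : ℕ) (hp : p.Prime) : 1 ≤ lpn p n := by
  rw [Nat.one_le_iff_ne_zero]
  intro h
  unfold lpn at h
  rw [Finset.lcm_eq_zero_iff] at h
  obtain ⟨x, hx, h0⟩ := h
  rw [Finset.mem_filter] at hx
  obtain ⟨hx1, hx2, hx3⟩ := hx
  rw [Finset.mem_product, Finset.mem_Icc, Finset.mem_Icc] at hx1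
  have h1 : 1 < p ^ x.1 := Nat.one_lt_pow (by omega) hp.one_lt
  have h2 : 0 < (p ^ x.1 - 1) * x.2 := Nat.mul_pos (by omega) (by omega)
  omega

theorem pgn_dvd (p n m ℓ : ℕ) (hp : p.Prime) (hm : 1 ≤ m) (hℓ : 1 ≤ ℓ) (hpℓ : ¬ p ∣ ℓ)
    (hn : p ^ m * ℓ ≤ n) : (p ^ m - 1) * ℓ ∣ lpn p n := by
  have h1 : m < p ^ m := Nat.lt_pow_self hp.one_lt
  have h2 : p ^ m ≤ p ^ m * ℓ := Nat.le_mul_of_pos_right _ (by omega)
  have h3 : ℓ ≤ p ^ m * ℓ := Nat.le_mul_of_pos_left _ (by omega)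
  exact Finset.dvd_lcm (f := fun x : ℕ × ℕ => (p ^ x.1 - 1) * x.2) (b := (m, ℓ))
    (Finset.mem_filter.2 ⟨Finset.mem_product.2
      ⟨Finset.mem_Icc.2 ⟨hm, by simp only; omega⟩, Finset.mem_Icc.2 ⟨hℓ, by simp only; omega⟩⟩, hpℓ, hn⟩)

theorem pgn_thm (h1 : S_PG1) (h2 : S_PG2) (h3 : S_GDX) : S_PGN := by
  intro p n k G _ _ _ _ ι hp hk hι
  refine h3 p k G (Nat.log p n - Nat.gcd 2 p) (lpn p n) hp hk (pgn_pos p n hp) ?_
  intro W hW _
  refine ⟨?_, ?_⟩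
  · intro z hz hz1 hzp hzc
    obtain ⟨H, H₀, d, hHW, hzH, hc, hd, hH0, hz0, hcH, hn, hcomm⟩ :=
      h1 p n G ι W z hp hι hW hz hz1 hzp hzc
    have hlog : d + 1 ≤ Nat.log p n := Nat.le_log_of_pow_le hp.one_lt hd
    have hP : PSec p H z := ⟨H₀, hH0, hn, hz0, Or.inl hcomm⟩
    refine ⟨H, d, hHW, hzH, hc, ?_⟩
    rcases hp.eq_two_or_odd with h | h
    · subst h
      have hg : Nat.gcd 2 2 = 2 := rfl
      rw [hg]
      rcases Nat.eq_zero_or_pos d with h0 | h0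
      · left
        exact ⟨hP, by omega⟩
      · right
        exact ⟨rfl, h0, by omega, H₀, hH0, hz0, hcH⟩
    · have hg : Nat.gcd 2 p = 1 := by
        rw [Nat.coprime_two_left.2 (Nat.odd_iff.2 h)]
      rw [hg]
      left
      exact ⟨hP, by omega⟩
  · intro g C hg _ _ hC hEA _ hgC hYS x hx
    obtain ⟨m, ℓ, hm, hℓ, hpℓ, hn, hcom⟩ := h2 p n G ι g C hp hι hg hC hEA hgC hYS
    obtain ⟨j, hj⟩ := pgn_dvd p n m ℓ hp hm hℓ hpℓ hn
    rw [hj, pow_mul]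
    exact (Commute.pow_left (hcom x hx) j)

end Pool.CND
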